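import Pool.Agent.N659.HB.Stm2

/-!
# Phases and self-energies
-/

namespace Pool.Agent.N75.HB

open Pool.Agent.N659.HB Pool.Agent.W792.LL Pool.Agent.W792.WA

noncomputable section

lemma cayx_zero (S : ℂ) : cayx S 0 = (S + Complex.I) / (S - Complex.I) := by
  unfold cayx
  rw [Complex.ofReal_zero, add_zero]

lemma ne_one {s : ℂ} {R : ℝ} (h1 : ‖s + 1‖ ≤ R * ‖s - 1‖) : s - 1 ≠ 0 := by
  intro h
  have h2 : s = 1 := sub_eq_zero.1 h
  rw [h, norm_zero, mul_zero, h2] at h1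
  have h3 : ‖(1 : ℂ) + 1‖ = 2 := by
    have : (1 : ℂ) + 1 = 2 := by norm_num
    rw [this]
    simp
  rw [h3] at h1
  norm_num at h1

lemma fwd {s : ℂ} {R η : ℝ} (h1 : ‖s + 1‖ ≤ R * ‖s - 1‖)
    (h2 : η * ‖s - 1‖ ^ 2 ≤ 1 - ‖s‖ ^ 2) :
    s = cayx (Complex.I * (s + 1) / (s - 1)) 0 ∧ ‖Complex.I * (s + 1) / (s - 1)‖ ≤ R ∧
      (Complex.I * (s + 1) / (s - 1)).im ≤ -η := by
  have h0 := ne_one h1
  have hpos : 0 < ‖s - 1‖ := norm_pos_iff.2 h0
  refine ⟨?_, ?_, ?_⟩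
  · rw [cayx_zero]
    have e1 : Complex.I * (s + 1) / (s - 1) + Complex.I = 2 * Complex.I * s / (s - 1) := by
      field_simp
      ring
    have e2 : Complex.I * (s + 1) / (s - 1) - Complex.I = 2 * Complex.I / (s - 1) := by
      field_simp
      ring
    rw [e1, e2]
    have hI : Complex.I ≠ 0 := Complex.I_ne_zero
    field_simp
  · rw [norm_div, norm_mul, Complex.norm_I, one_mul, div_le_iff₀ hpos]
    exact h1
  · have e1 : (Complex.I * (s + 1) / (s - 1)).im = ((s + 1) / (s - 1)).re := by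
      rw [mul_div_assoc, Complex.I_mul_im]
    rw [e1, Complex.div_re]
    have e2 : Complex.normSq (s - 1) = ‖s - 1‖ ^ 2 := Complex.normSq_eq_norm_sq _
    have e3 : ‖s‖ ^ 2 = s.re * s.re + s.im * s.im := by
      rw [← Complex.normSq_eq_norm_sq, Complex.normSq_apply]
    rw [e2, ← add_div, div_le_iff₀ (by positivity)]
    simp only [Complex.add_re, Complex.add_im, Complex.sub_re, Complex.sub_im, Complex.one_re,
      Complex.one_im]
    rw [e3] at h2
    nlinarith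

lemma bwd {s S : ℂ} {R η : ℝ} (hη : 0 < η) (hs : s = cayx S 0) (hS : ‖S‖ ≤ R)
    (him : S.im ≤ -η) :
    ‖s‖ ≤ 1 ∧ ‖s + 1‖ ≤ R * ‖s - 1‖ ∧ η * ‖s - 1‖ ^ 2 ≤ 1 - ‖s‖ ^ 2 := by
  rw [cayx_zero] at hs
  have h0 : S - Complex.I ≠ 0 := by
    intro h
    have h1 := congrArg Complex.im h
    rw [Complex.sub_im, Complex.I_im, Complex.zero_im] at h1
    linarith
  have hpos : 0 < ‖S - Complex.I‖ := norm_pos_iff.2 h0
  have e1 : s - 1 = 2 * Complex.I / (S - Complex.I) := by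
    rw [hs]
    field_simp
    ring
  have e2 : s + 1 = 2 * S / (S - Complex.I) := by
    rw [hs]
    field_simp
    ring
  have n1 : ‖s - 1‖ = 2 / ‖S - Complex.I‖ := by
    rw [e1, norm_div, norm_mul, Complex.norm_I, mul_one]
    simp
  have n2 : ‖s + 1‖ = 2 * ‖S‖ / ‖S - Complex.I‖ := by
    rw [e2, norm_div, norm_mul]
    simp
  have n3 : ‖s‖ ^ 2 = ‖S + Complex.I‖ ^ 2 / ‖S - Complex.I‖ ^ 2 := by
    rw [hs, norm_div, div_pow]
  have n4 : ‖S - Complex.I‖ ^ 2 - ‖S + Complex.I‖ ^ 2 = -4 * S.im := by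
    rw [← Complex.normSq_eq_norm_sq, ← Complex.normSq_eq_norm_sq, Complex.normSq_apply,
      Complex.normSq_apply]
    simp only [Complex.add_re, Complex.add_im, Complex.sub_re, Complex.sub_im, Complex.I_re,
      Complex.I_im]
    ring
  have n5 : 1 - ‖s‖ ^ 2 = -4 * S.im / ‖S - Complex.I‖ ^ 2 := by
    rw [n3, ← n4]
    field_simp
  have h3 : η * ‖s - 1‖ ^ 2 ≤ 1 - ‖s‖ ^ 2 := by
    rw [n5, n1, div_pow, ← mul_div_assoc]
    refine div_le_div_of_nonneg_right ?_ (by positivity)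
    linarith
  refine ⟨?_, ?_, h3⟩
  · have h4 : 0 ≤ η * ‖s - 1‖ ^ 2 := by positivity
    have h5 : ‖s‖ ^ 2 ≤ 1 := by linarith
    by_contra h6
    push Not at h6
    have h7 : 1 < ‖s‖ ^ 2 := by nlinarith
    linarith
  · rw [n1, n2, ← mul_div_assoc]
    gcongr ?_ / _
    linarith

lemma bound {s : ℂ} {R η : ℝ} (hη : 0 < η) (hR : η ≤ R) (h1 : ‖s + 1‖ ≤ R * ‖s - 1‖)
    (h2 : η * ‖s - 1‖ ^ 2 ≤ 1 - ‖s‖ ^ 2) : ‖s‖ ≤ 1 - 2 * η / (R + 1) ^ 2 := by
  have hR0 : 0 < R + 1 := by linarith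
  have h3 : 2 ≤ (R + 1) * ‖s - 1‖ := by
    have h4 : ‖(s + 1) - (s - 1)‖ ≤ ‖s + 1‖ + ‖s - 1‖ := norm_sub_le _ _
    have h5 : (s + 1) - (s - 1) = 2 := by ring
    rw [h5] at h4
    have h6 : ‖(2 : ℂ)‖ = 2 := by simp
    rw [h6] at h4
    linarith
  have h4 : 2 / (R + 1) ≤ ‖s - 1‖ := by
    rw [div_le_iff₀ hR0]
    linarith
  have h5 : 4 / (R + 1) ^ 2 ≤ ‖s - 1‖ ^ 2 := by
    have : (2 / (R + 1)) ^ 2 ≤ ‖s - 1‖ ^ 2 := by gcongr
    calc _ = (2 / (R + 1)) ^ 2 := by rw [div_pow]; norm_num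
      _ ≤ _ := this
  obtain ⟨x, hx⟩ : ∃ x, x = 2 * η / (R + 1) ^ 2 := ⟨_, rfl⟩
  have h6 : 2 * x ≤ 1 - ‖s‖ ^ 2 := by
    calc 2 * x = η * (4 / (R + 1) ^ 2) := by rw [hx]; ring
      _ ≤ η * ‖s - 1‖ ^ 2 := by gcongr
      _ ≤ _ := h2
  have h7 : x ≤ 1 := by
    rw [hx, div_le_one (by positivity)]
    nlinarith
  rw [← hx]
  by_contra h8
  push Not at h8
  have h9 : (1 - x) ^ 2 < ‖s‖ ^ 2 := by
    have : 0 ≤ 1 - x := by linarith
    gcongr
  nlinarith [sq_nonneg x]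

theorem main : S_ZR := by
  intro d R η hη hR
  have hback : ∀ (s S : C(UnitAddTorus (Fin d), ℂ)),
      (∀ k, s k = cayx (S k) 0 ∧ ‖S k‖ ≤ R ∧ (S k).im ≤ -η) → s ∈ ZR d R η := by
    intro s S h
    have h1 := fun k => bwd hη (h k).1 (h k).2.1 (h k).2.2
    refine ⟨?_, fun k => (h1 k).2⟩
    rw [ContinuousMap.norm_le _ zero_le_one]
    exact fun k => (h1 k).1
  refine ⟨?_, ?_, ?_, hback⟩
  · have h1 : ZR d R η = {s | ‖s‖ ≤ 1} ∩ ⋂ k, ({s | ‖s k + 1‖ ≤ R * ‖s k - 1‖} ∩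
        {s | η * ‖s k - 1‖ ^ 2 ≤ 1 - ‖s k‖ ^ 2}) := by
      ext s
      simp only [ZR, Set.mem_ofPred_eq, Set.mem_inter_iff, Set.mem_iInter]
    rw [h1]
    refine (isClosed_le continuous_norm continuous_const).inter (isClosed_iInter fun k => ?_)
    have hc : Continuous fun s : C(UnitAddTorus (Fin d), ℂ) => s k :=
      continuous_eval_const k
    refine (isClosed_le ?_ ?_).inter (isClosed_le ?_ ?_)
    · exact (hc.add continuous_const).norm
    · exact continuous_const.mul (hc.sub continuous_const).norm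
    · exact continuous_const.mul ((hc.sub continuous_const).norm.pow 2)
    · exact continuous_const.sub (hc.norm.pow 2)
  · let S : C(UnitAddTorus (Fin d), ℂ) := ContinuousMap.const _ (-(Complex.I * η))
    let s : C(UnitAddTorus (Fin d), ℂ) := ContinuousMap.const _ (cayx (-(Complex.I * η)) 0)
    refine ⟨s, hback s S fun k => ⟨rfl, ?_, ?_⟩⟩
    · change ‖-(Complex.I * η)‖ ≤ R
      rw [norm_neg, norm_mul, Complex.norm_I, one_mul, Complex.norm_real, Real.norm_eq_abs,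
        abs_of_pos hη]
      exact hR
    · change (-(Complex.I * (η : ℂ))).im ≤ -η
      rw [Complex.neg_im, Complex.I_mul_im, Complex.ofReal_re]
  · intro s hs
    constructor
    · have h1 : 0 ≤ 1 - 2 * η / (R + 1) ^ 2 := by
        rw [sub_nonneg, div_le_one (by nlinarith)]
        nlinarith
      rw [ContinuousMap.norm_le _ h1]
      exact fun k => bound hη hR (hs.2 k).1 (hs.2 k).2
    · have hc : Continuous fun k => Complex.I * (s k + 1) / (s k - 1) := by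
        refine Continuous.div ?_ ?_ fun k => ne_one (hs.2 k).1
        · exact continuous_const.mul (s.continuous.add continuous_const)
        · exact s.continuous.sub continuous_const
      exact ⟨⟨_, hc⟩, fun k => fwd (hs.2 k).1 (hs.2 k).2⟩

end

end Pool.Agent.N75.HB
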